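import Mathlib

/-!
# The Balog-Szemeredi-Gowers theorem, with explicit constants

For a finite set `G` in an abelian group with at least `|G|^3 / K` additive quadruples there is
`G' ⊆ G` with `|G| ≤ 6 K |G'|` and `|G' - G'| ≤ 2^22 K^10 |G'|`.
-/

namespace Pool.Agent.H43.AK

open Finset
open scoped Pointwise

variable {V : Type*} [AddCommGroup V] [DecidableEq V]

/-- The number of representations of `v` as `f x`, `x ∈ X`. -/
def rep {α : Type*} (X : Finset α) (f : α → V) (v : V) : ℕ := #{x ∈ X | f x = v}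

/-- The number of representations of a difference. -/
def dif (G : Finset V) (v : V) : ℕ := rep (G ×ˢ G) (fun p => p.1 - p.2) v

/-- The number of additive quadruples. -/
def quads (G : Finset V) : ℕ := ∑ p ∈ G ×ˢ G, dif G (p.1 - p.2)

lemma conv_le {ι α β : Type*} (X : Finset α) (Y : Finset β) (f : α → V) (h : β → V)
    (S : Finset ι) (u : ι → V) (hu : Set.InjOn u S) (w : V) (m n : ℝ)
    (hn0 : 0 ≤ n) (hm : ∀ b ∈ S, m ≤ rep X f (u b))
    (hn : ∀ b ∈ S, n ≤ rep Y h (w - u b)) :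
    (#S : ℝ) * (m * n) ≤ rep (X ×ˢ Y) (fun p => f p.1 + h p.2) w := by
  classical
  set T : ι → Finset (α × β) := fun b => {x ∈ X | f x = u b} ×ˢ {y ∈ Y | h y = w - u b} with hT
  have hsub : (S.biUnion T) ⊆ {p ∈ X ×ˢ Y | f p.1 + h p.2 = w} := by
    intro p hp
    simp only [hT, mem_biUnion, mem_product, mem_filter] at hp ⊢
    obtain ⟨b, -, ⟨h1, h2⟩, h3, h4⟩ := hp
    exact ⟨⟨h1, h3⟩, by rw [h2, h4]; abel⟩
  have hdis : ∀ b ∈ S, ∀ b' ∈ S, b ≠ b' → Disjoint (T b) (T b') := by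
    intro b hb b' hb' hne
    rw [Finset.disjoint_left]
    intro p hp hp'
    simp only [hT, mem_product, mem_filter] at hp hp'
    exact hne (hu (by simpa using hb) (by simpa using hb') (hp.1.2.symm.trans hp'.1.2))
  have hcard : #(S.biUnion T) = ∑ b ∈ S, #(T b) := card_biUnion hdis
  have h1 : (∑ b ∈ S, #(T b)) ≤ rep (X ×ˢ Y) (fun p => f p.1 + h p.2) w := by
    rw [← hcard]; exact card_le_card hsub
  have h2 : (#S : ℝ) * (m * n) ≤ ∑ b ∈ S, (#(T b) : ℝ) := by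
    rw [← nsmul_eq_mul]
    apply card_nsmul_le_sum
    intro b hb
    simp only [hT, card_product, Nat.cast_mul]
    exact mul_le_mul (hm b hb) (hn b hb) hn0 (Nat.cast_nonneg _)
  calc (#S : ℝ) * (m * n) ≤ ∑ b ∈ S, (#(T b) : ℝ) := h2
    _ = ((∑ b ∈ S, #(T b) : ℕ) : ℝ) := by push_cast; rfl
    _ ≤ _ := by exact_mod_cast h1

omit [AddCommGroup V] in
lemma sum_rep_le {α : Type*} (X : Finset α) (f : α → V) (S : Finset V) :
    ∑ v ∈ S, rep X f v ≤ #X := by
  classical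
  unfold rep
  rw [← card_biUnion]
  · apply card_le_card
    intro x hx
    simp only [mem_biUnion, mem_filter] at hx
    obtain ⟨v, -, h, -⟩ := hx
    exact h
  · intro v _ v' _ hne
    show Disjoint _ _
    rw [Finset.disjoint_left]
    intro x hx hx'
    simp only [mem_filter] at hx hx'
    exact hne (hx.2.symm.trans hx'.2)

lemma dif_neg (G : Finset V) (v : V) : dif G (-v) = dif G v := by
  unfold dif rep
  apply card_bij (fun p _ => (p.2, p.1))
  · intro p hp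
    simp only [mem_filter, mem_product] at hp ⊢
    refine ⟨⟨hp.1.2, hp.1.1⟩, ?_⟩
    rw [← neg_sub, hp.2, neg_neg]
  · rintro ⟨a, b⟩ _ ⟨c, d⟩ _ h
    simpa [and_comm] using h
  · rintro ⟨a, b⟩ hb
    simp only [mem_filter, mem_product] at hb
    refine ⟨(b, a), ?_, rfl⟩
    simp only [mem_filter, mem_product]
    refine ⟨⟨hb.1.2, hb.1.1⟩, ?_⟩
    rw [← neg_sub, hb.2]

lemma dif_le (G : Finset V) (v : V) : dif G v ≤ #G := by
  unfold dif rep
  apply card_le_card_of_injOn (fun p => p.1)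
  · intro p hp
    simp only [coe_filter, mem_product, Set.mem_ofPred_eq] at hp
    exact hp.1.1
  · rintro ⟨a, b⟩ hp ⟨c, d⟩ hq h
    simp only [coe_filter, mem_product, Set.mem_ofPred_eq] at hp hq h
    subst h
    have : b = d := by
      have := hp.2.trans hq.2.symm
      simpa using this
    rw [this]


/-- A popular pair. -/
abbrev Pop (G : Finset V) (K : ℕ) (a b : V) : Prop := #G ≤ 2 * K * dif G (a - b)

/-- The popular neighbours of `b`. -/
def nb (G : Finset V) (K : ℕ) (b : V) : Finset V := {a ∈ G | Pop G K a b}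

/-- The number of common popular neighbours. -/
def cn (G : Finset V) (K : ℕ) (a a' : V) : ℕ := #{b ∈ G | Pop G K a b ∧ Pop G K a' b}

/-- A bad pair: few common neighbours. -/
abbrev Bad (G : Finset V) (K : ℕ) (a a' : V) : Prop := 64 * K ^ 2 * cn G K a a' < #G

lemma bad_symm (G : Finset V) (K : ℕ) (a a' : V) : Bad G K a a' ↔ Bad G K a' a := by
  have : cn G K a a' = cn G K a' a := by
    unfold cn; congr 1; ext b; simp [and_comm]
  unfold Bad; rw [this]

lemma edges (G : Finset V) (K : ℕ) (hG : 0 < #G) (hE : #G ^ 3 ≤ K * quads G) :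
    #G ^ 2 ≤ 2 * K * ∑ b ∈ G, #(nb G K b) := by
  classical
  have h1 : ∑ b ∈ G, #(nb G K b) = #{p ∈ G ×ˢ G | Pop G K p.1 p.2} := by
    rw [card_filter, sum_product_right]
    apply sum_congr rfl
    intro b _
    rw [nb, card_filter]
  rw [h1]
  set Γ := {p ∈ G ×ˢ G | Pop G K p.1 p.2} with hΓ
  have h2 : quads G = ∑ p ∈ Γ, dif G (p.1 - p.2) +
      ∑ p ∈ G ×ˢ G with ¬ Pop G K p.1 p.2, dif G (p.1 - p.2) := by
    rw [quads, hΓ, sum_filter_add_sum_filter_not]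
  have h3 : ∑ p ∈ Γ, dif G (p.1 - p.2) ≤ #Γ * #G := by
    rw [← smul_eq_mul]
    exact sum_le_card_nsmul _ _ _ fun p _ => dif_le G _
  have h4 : 2 * K * ∑ p ∈ G ×ˢ G with ¬ Pop G K p.1 p.2, dif G (p.1 - p.2) ≤ #G ^ 2 * #G := by
    rw [mul_sum]
    calc ∑ p ∈ G ×ˢ G with ¬ Pop G K p.1 p.2, 2 * K * dif G (p.1 - p.2)
        ≤ #{p ∈ G ×ˢ G | ¬ Pop G K p.1 p.2} • #G := by
          apply sum_le_card_nsmul
          intro p hp
          simp only [mem_filter, not_le] at hp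
          exact hp.2.le
      _ ≤ #(G ×ˢ G) • #G := by
          rw [smul_eq_mul, smul_eq_mul]
          exact Nat.mul_le_mul_right _ (card_le_card (filter_subset _ _))
      _ = #G ^ 2 * #G := by rw [card_product, smul_eq_mul, sq]
  have h5 : 2 * #G ^ 3 ≤ 2 * K * (#Γ * #G) + #G ^ 2 * #G := by
    calc 2 * #G ^ 3 ≤ 2 * (K * quads G) := by omega
      _ = 2 * K * (∑ p ∈ Γ, dif G (p.1 - p.2)) +
          2 * K * ∑ p ∈ G ×ˢ G with ¬ Pop G K p.1 p.2, dif G (p.1 - p.2) := by rw [h2]; ring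
      _ ≤ _ := by gcongr
  have h6 : #G ^ 2 * #G ≤ (2 * K * #Γ) * #G := by nlinarith
  exact Nat.le_of_mul_le_mul_right h6 hG

lemma sum_bad (G : Finset V) (K : ℕ) :
    64 * K ^ 2 * ∑ b ∈ G, #{p ∈ nb G K b ×ˢ nb G K b | Bad G K p.1 p.2} ≤ #G ^ 3 := by
  classical
  have h1 : ∑ b ∈ G, #{p ∈ nb G K b ×ˢ nb G K b | Bad G K p.1 p.2} =
      ∑ p ∈ G ×ˢ G with Bad G K p.1 p.2, cn G K p.1 p.2 := by
    calc ∑ b ∈ G, #{p ∈ nb G K b ×ˢ nb G K b | Bad G K p.1 p.2}
        = ∑ b ∈ G, ∑ p ∈ G ×ˢ G with Bad G K p.1 p.2,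
            if (Pop G K p.1 b ∧ Pop G K p.2 b) then 1 else 0 := by
          apply sum_congr rfl
          intro b _
          rw [← card_filter, filter_filter]
          congr 1
          ext p
          simp only [nb, mem_filter, mem_product]
          tauto
      _ = ∑ p ∈ G ×ˢ G with Bad G K p.1 p.2, ∑ b ∈ G,
            if (Pop G K p.1 b ∧ Pop G K p.2 b) then 1 else 0 := sum_comm
      _ = _ := by
          apply sum_congr rfl
          intro p _
          rw [← card_filter, cn]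
  rw [h1, mul_sum]
  calc ∑ p ∈ G ×ˢ G with Bad G K p.1 p.2, 64 * K ^ 2 * cn G K p.1 p.2
      ≤ #{p ∈ G ×ˢ G | Bad G K p.1 p.2} • #G := by
        apply sum_le_card_nsmul
        intro p hp
        simp only [mem_filter] at hp
        exact hp.2.le
    _ ≤ #(G ×ˢ G) • #G := by
        rw [smul_eq_mul, smul_eq_mul]
        exact Nat.mul_le_mul_right _ (card_le_card (filter_subset _ _))
    _ = #G ^ 3 := by rw [card_product, smul_eq_mul]; ring

/-- A popular neighbourhood with few bad pairs. -/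
lemma exists_nb (G : Finset V) (K : ℕ) (hK : 0 < K) (hG : 0 < #G)
    (hE : #G ^ 3 ≤ K * quads G) :
    ∃ b ∈ G, (#G : ℝ) ^ 2 / (8 * K ^ 2) ≤ (#(nb G K b) : ℝ) ^ 2 -
      8 * (#{p ∈ nb G K b ×ˢ nb G K b | Bad G K p.1 p.2} : ℝ) := by
  by_contra hcon
  push Not at hcon
  have hK' : (0 : ℝ) < K := by exact_mod_cast hK
  have hG' : (0 : ℝ) < #G := by exact_mod_cast hG
  have h1 : ∑ b ∈ G, ((#(nb G K b) : ℝ) ^ 2 -
      8 * (#{p ∈ nb G K b ×ˢ nb G K b | Bad G K p.1 p.2} : ℝ)) <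
      ∑ b ∈ G, (#G : ℝ) ^ 2 / (8 * K ^ 2) :=
    sum_lt_sum_of_nonempty (card_pos.mp hG) hcon
  rw [sum_sub_distrib, ← mul_sum, sum_const, nsmul_eq_mul] at h1
  have h2 : (#G : ℝ) ^ 2 ≤ 2 * K * ∑ b ∈ G, (#(nb G K b) : ℝ) := by
    exact_mod_cast edges G K hG hE
  have h3 : 64 * (K : ℝ) ^ 2 * ∑ b ∈ G,
      (#{p ∈ nb G K b ×ˢ nb G K b | Bad G K p.1 p.2} : ℝ) ≤ (#G : ℝ) ^ 3 := by
    exact_mod_cast sum_bad G K
  have h4 : (∑ b ∈ G, (#(nb G K b) : ℝ)) ^ 2 ≤ #G * ∑ b ∈ G, (#(nb G K b) : ℝ) ^ 2 :=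
    sq_sum_le_card_mul_sum_sq
  set s1 := ∑ b ∈ G, (#(nb G K b) : ℝ) with hs1
  set s2 := ∑ b ∈ G, (#(nb G K b) : ℝ) ^ 2 with hs2
  set s3 := ∑ b ∈ G, (#{p ∈ nb G K b ×ˢ nb G K b | Bad G K p.1 p.2} : ℝ) with hs3
  set N : ℝ := (#G : ℝ) with hN
  set k : ℝ := (K : ℝ) with hk
  have h5 : N ^ 3 ≤ 4 * k ^ 2 * s2 := by
    have : (N ^ 2) ^ 2 ≤ (2 * k * s1) ^ 2 := by gcongr
    have h : N * N ^ 3 ≤ N * (4 * k ^ 2 * s2) := by nlinarith
    exact le_of_mul_le_mul_left h hG'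
  have h6 : (s2 - 8 * s3) * (8 * k ^ 2) < N ^ 3 := by
    have h7 : (s2 - 8 * s3) * (8 * k ^ 2) < (N * (N ^ 2 / (8 * k ^ 2))) * (8 * k ^ 2) := by
      apply mul_lt_mul_of_pos_right h1 (by positivity)
    have h8 : (N * (N ^ 2 / (8 * k ^ 2))) * (8 * k ^ 2) = N ^ 3 := by
      field_simp
    linarith
  nlinarith


/-- A good pair has many representations as a sum of two differences. -/
lemma good_rep (G : Finset V) (K : ℕ) (hK : 0 < K) (a a' : V) (h : ¬ Bad G K a a') :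
    (#G : ℝ) ^ 3 / (256 * K ^ 4) ≤
      rep ((G ×ˢ G) ×ˢ (G ×ˢ G)) (fun p => (p.1.1 - p.1.2) + (p.2.1 - p.2.2)) (a - a') := by
  have hK' : (0 : ℝ) < K := by exact_mod_cast hK
  set N : ℝ := (#G : ℝ) with hN
  have hN0 : 0 ≤ N := Nat.cast_nonneg _
  have h1 := conv_le (G ×ˢ G) (G ×ˢ G) (fun p : V × V => p.1 - p.2) (fun p : V × V => p.1 - p.2)
    {b ∈ G | Pop G K a b ∧ Pop G K a' b} (fun b => a - b)
    (by intro x _ y _ hxy; simpa using hxy) (a - a') (N / (2 * K)) (N / (2 * K))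
    (by positivity) ?_ ?_
  · refine le_trans ?_ h1
    have h2 : N ≤ 64 * K ^ 2 * (cn G K a a' : ℝ) := by
      have := not_lt.mp h
      rw [hN]; exact_mod_cast this
    have h3 : (#{b ∈ G | Pop G K a b ∧ Pop G K a' b} : ℝ) = cn G K a a' := rfl
    rw [h3]
    rw [div_le_iff₀ (by positivity)]
    have h4 : (cn G K a a' : ℝ) * (N / (2 * K) * (N / (2 * K))) * (256 * K ^ 4) =
        (64 * K ^ 2 * (cn G K a a' : ℝ)) * N ^ 2 := by
      field_simp
      ring
    rw [h4]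
    nlinarith [mul_le_mul_of_nonneg_right h2 (sq_nonneg N)]
  · intro b hb
    simp only [mem_filter] at hb
    rw [div_le_iff₀ (by positivity)]
    have : (N : ℝ) ≤ 2 * K * dif G (a - b) := by rw [hN]; exact_mod_cast hb.2.1
    have h5 : (dif G (a - b) : ℝ) = rep (G ×ˢ G) (fun p => p.1 - p.2) (a - b) := rfl
    rw [← h5]; linarith
  · intro b hb
    simp only [mem_filter] at hb
    rw [div_le_iff₀ (by positivity)]
    have h6 : a - a' - (a - b) = -(a' - b) := by abel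
    have : (N : ℝ) ≤ 2 * K * dif G (a' - b) := by rw [hN]; exact_mod_cast hb.2.2
    have h5 : (rep (G ×ˢ G) (fun p : V × V => p.1 - p.2) (a - a' - (a - b)) : ℝ) =
        dif G (a' - b) := by
      rw [h6]; exact_mod_cast dif_neg G (a' - b)
    rw [h5]; linarith

/-- **Balog-Szemeredi-Gowers.** -/
theorem bsg (G : Finset V) (K : ℕ) (hK : 0 < K) (hG : 0 < #G) (hE : #G ^ 3 ≤ K * quads G) :
    ∃ G' ⊆ G, 0 < #G' ∧ #G ≤ 6 * K * #G' ∧ #(G' - G') ≤ 2 ^ 21 * K ^ 10 * #G' := by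
  classical
  obtain ⟨b, -, hb⟩ := exists_nb G K hK hG hE
  have hK' : (0 : ℝ) < K := by exact_mod_cast hK
  have hG' : (0 : ℝ) < #G := by exact_mod_cast hG
  set A := nb G K b with hA
  set N : ℝ := (#G : ℝ) with hN
  set α : ℝ := (#A : ℝ) with hα
  set β : ℝ := (#{p ∈ A ×ˢ A | Bad G K p.1 p.2} : ℝ) with hβ
  have hβ0 : 0 ≤ β := Nat.cast_nonneg _
  have hq : 0 < N ^ 2 / (8 * K ^ 2) := by positivity
  have hαβ : 8 * β ≤ α ^ 2 := by linarith
  have hα0 : 0 < α := by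
    rcases eq_or_lt_of_le (show (0 : ℝ) ≤ α from Nat.cast_nonneg _) with h | h
    · rw [← h] at hb; nlinarith
    · exact h
  have hNα : N ^ 2 ≤ 8 * K ^ 2 * α ^ 2 := by
    have : N ^ 2 / (8 * K ^ 2) ≤ α ^ 2 := by linarith
    rw [div_le_iff₀ (by positivity)] at this
    linarith
  have hN3 : N ≤ 3 * K * α := by
    have : N ^ 2 ≤ (3 * K * α) ^ 2 := by nlinarith [sq_nonneg (K * α)]
    exact le_of_sq_le_sq this (by positivity)
  have hAG : A ⊆ G := filter_subset _ _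
  -- the refined set
  set B := {a ∈ A | 4 * #{a' ∈ A | Bad G K a a'} ≤ #A} with hB
  have hBA : B ⊆ A := filter_subset _ _
  have hBc : α ≤ 2 * (#B : ℝ) := by
    have h1 : ∑ a ∈ A \ B, (#{a' ∈ A | Bad G K a a'} : ℝ) ≤ β := by
      calc ∑ a ∈ A \ B, (#{a' ∈ A | Bad G K a a'} : ℝ)
          ≤ ∑ a ∈ A, (#{a' ∈ A | Bad G K a a'} : ℝ) :=
            sum_le_sum_of_subset_of_nonneg sdiff_subset fun _ _ _ => Nat.cast_nonneg _
        _ = β := by
            rw [hβ, card_filter, sum_product]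
            push_cast
            apply sum_congr rfl
            intro a _
            rw [card_filter]
            push_cast
            rfl
    have h2 : (#(A \ B) : ℝ) * (α / 4) ≤ ∑ a ∈ A \ B, (#{a' ∈ A | Bad G K a a'} : ℝ) := by
      rw [← nsmul_eq_mul]
      apply card_nsmul_le_sum
      intro a ha
      simp only [hB, mem_sdiff, mem_filter, not_and, not_le] at ha
      have : (#A : ℝ) < 4 * (#{a' ∈ A | Bad G K a a'} : ℝ) := by exact_mod_cast ha.2 ha.1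
      rw [hα]; linarith
    have h3 : (#(A \ B) : ℝ) = α - #B := by
      rw [card_sdiff_of_subset hBA, Nat.cast_sub (card_le_card hBA)]
    rw [h3] at h2
    have h4 : (α - #B) * α ≤ (α / 2) * α := by nlinarith
    have h5 := le_of_mul_le_mul_right h4 hα0
    linarith
  have hBpos : 0 < #B := by
    have : (0 : ℝ) < #B := by linarith
    exact_mod_cast this
  -- representations
  set m : ℝ := N ^ 3 / (256 * K ^ 4) with hm
  have hm0 : 0 < m := by positivity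
  set X := (G ×ˢ G) ×ˢ (G ×ˢ G) with hX
  have hrep : ∀ x ∈ B - B, α / 2 * (m * m) ≤ rep (X ×ˢ X)
      (fun p => ((p.1.1.1 - p.1.1.2) + (p.1.2.1 - p.1.2.2)) +
        ((p.2.1.1 - p.2.1.2) + (p.2.2.1 - p.2.2.2))) x := by
    intro x hx
    obtain ⟨a, ha, c, hc, rfl⟩ := mem_sub.mp hx
    simp only [hB, mem_filter] at ha hc
    have h1 := conv_le X X (fun p => (p.1.1 - p.1.2) + (p.2.1 - p.2.2))
      (fun p => (p.1.1 - p.1.2) + (p.2.1 - p.2.2))
      {a' ∈ A | ¬ Bad G K a a' ∧ ¬ Bad G K a' c} (fun a' => a - a')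
      (by intro x _ y _ hxy; simpa using hxy) (a - c) m m hm0.le ?_ ?_
    · refine le_trans ?_ h1
      apply mul_le_mul_of_nonneg_right _ (by positivity)
      have h2 : A ⊆ {a' ∈ A | ¬ Bad G K a a' ∧ ¬ Bad G K a' c} ∪
          ({a' ∈ A | Bad G K a a'} ∪ {a' ∈ A | Bad G K c a'}) := by
        intro y hy
        simp only [mem_union, mem_filter, hy, true_and]
        rw [bad_symm G K y c]
        tauto
      have h3 := (card_le_card h2).trans (card_union_le _ _)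
      have h4 := card_union_le {a' ∈ A | Bad G K a a'} {a' ∈ A | Bad G K c a'}
      have h5 : 2 * #A ≤ 4 * #{a' ∈ A | ¬ Bad G K a a' ∧ ¬ Bad G K a' c} := by
        have := ha.2
        have := hc.2
        omega
      have h6 : 2 * (#A : ℝ) ≤ 4 * (#{a' ∈ A | ¬ Bad G K a a' ∧ ¬ Bad G K a' c} : ℝ) := by
        exact_mod_cast h5
      rw [hα]; linarith
    · intro a' ha'
      simp only [mem_filter] at ha'
      exact good_rep G K hK a a' ha'.2.1
    · intro a' ha'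
      simp only [mem_filter] at ha'
      have h6 : a - c - (a - a') = a' - c := by abel
      rw [h6]
      exact good_rep G K hK a' c ha'.2.2
  have hsum : (#(B - B) : ℝ) * (α / 2 * (m * m)) ≤ N ^ 8 := by
    have h1 : (#(B - B) : ℝ) * (α / 2 * (m * m)) ≤ ∑ x ∈ B - B, (rep (X ×ˢ X)
        (fun p => ((p.1.1.1 - p.1.1.2) + (p.1.2.1 - p.1.2.2)) +
        ((p.2.1.1 - p.2.1.2) + (p.2.2.1 - p.2.2.2))) x : ℝ) := by
      rw [← nsmul_eq_mul]
      exact card_nsmul_le_sum _ _ _ hrep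
    have h2 := sum_rep_le (X ×ˢ X)
        (fun p : ((V × V) × (V × V)) × ((V × V) × (V × V)) =>
          ((p.1.1.1 - p.1.1.2) + (p.1.2.1 - p.1.2.2)) +
        ((p.2.1.1 - p.2.1.2) + (p.2.2.1 - p.2.2.2))) (B - B)
    have h3 : #(X ×ˢ X) = #G ^ 8 := by
      simp only [hX, card_product]; ring
    rw [h3] at h2
    have h4 : ∑ x ∈ B - B, (rep (X ×ˢ X)
        (fun p => ((p.1.1.1 - p.1.1.2) + (p.1.2.1 - p.1.2.2)) +
        ((p.2.1.1 - p.2.1.2) + (p.2.2.1 - p.2.2.2))) x : ℝ) ≤ N ^ 8 := by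
      rw [hN]; exact_mod_cast h2
    exact h1.trans h4
  refine ⟨B, hBA.trans hAG, hBpos, ?_, ?_⟩
  · have : N ≤ 6 * K * (#B : ℝ) := by nlinarith
    rw [hN] at this
    exact_mod_cast this
  · have h1 : (#(B - B) : ℝ) * (α / 2 * (m * m)) * (2 ^ 17 * K ^ 8) =
        N ^ 6 * ((#(B - B) : ℝ) * α) := by
      rw [hm]
      field_simp
      ring
    have h2 : N ^ 6 * ((#(B - B) : ℝ) * α) ≤ N ^ 6 * (2 ^ 17 * K ^ 8 * N ^ 2) := by
      rw [← h1]
      calc (#(B - B) : ℝ) * (α / 2 * (m * m)) * (2 ^ 17 * K ^ 8)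
          ≤ N ^ 8 * (2 ^ 17 * K ^ 8) := by gcongr
        _ = _ := by ring
    have h3 : (#(B - B) : ℝ) * α ≤ 2 ^ 17 * K ^ 8 * N ^ 2 :=
      le_of_mul_le_mul_left h2 (by positivity)
    have h4 : (#(B - B) : ℝ) * α ≤ (2 ^ 20 * K ^ 10 * α) * α := by
      calc (#(B - B) : ℝ) * α ≤ 2 ^ 17 * K ^ 8 * N ^ 2 := h3
        _ ≤ 2 ^ 17 * K ^ 8 * (8 * K ^ 2 * α ^ 2) := by gcongr
        _ = _ := by ring
    have h5 := le_of_mul_le_mul_right h4 hα0
    have h6 : (#(B - B) : ℝ) ≤ 2 ^ 21 * K ^ 10 * #B := by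
      calc (#(B - B) : ℝ) ≤ 2 ^ 20 * K ^ 10 * α := h5
        _ ≤ 2 ^ 20 * K ^ 10 * (2 * (#B : ℝ)) := by gcongr
        _ = _ := by ring
    exact_mod_cast h6

end Pool.Agent.H43.AK
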