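import Pool.Agent.H43.AK.Defs

/-!
# Projections of graphs with small sumsets

`G` is a finite subset of `ℤ × ℤ` on which the first coordinate is injective and `|m • G| ≤ L ^ m |G|`
for all `m`.  Then the projections `(x, y) ↦ y + j x`, `j < k`, cannot all be smaller than about
`|G| ^ (1 - 1/k)`.
-/

namespace Pool.Agent.H43.AK

open Finset
open scoped Pointwise

/-- `m_i = ∑_{j < k} j ^ i`. -/
def mm (k i : ℕ) : ℕ := ∑ j ∈ range k, j ^ i

/-- The exponent of the doubling constant. -/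
def ee (k : ℕ) : ℕ := k + ∑ i ∈ Ico 1 (k - 1), (mm k i + 1)

lemma smul_sum_mem {V ι : Type*} [AddCommGroup V] [DecidableEq V] [DecidableEq ι]
    (G : Finset V) (J : Finset ι) (c : ι → ℕ) (f : ι → V) (hf : ∀ j ∈ J, f j ∈ G) :
    ∑ j ∈ J, c j • f j ∈ (∑ j ∈ J, c j) • G := by
  induction J using Finset.induction_on with
  | empty => simp
  | insert a s ha ih =>
    rw [sum_insert ha, sum_insert ha, add_nsmul]
    apply add_mem_add
    · exact nsmul_mem_nsmul (hf a (mem_insert_self a s))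
    · exact ih fun j hj => hf j (mem_insert_of_mem hj)

/-- The graph lemma. -/
lemma fiber_le (G : Finset (ℤ × ℤ)) (hinj : Set.InjOn Prod.fst (G : Set (ℤ × ℤ))) (hG : 0 < #G)
    (L : ℕ) (hL : ∀ m : ℕ, #(m • G) ≤ L ^ m * #G) (m : ℕ) (x : ℤ) :
    #{v ∈ m • G | v.1 = x} ≤ L ^ (m + 1) := by
  have h1 : #(G ×ˢ {v ∈ m • G | v.1 = x}) ≤ #((m + 1) • G) := by
    apply card_le_card_of_injOn (fun p => p.1 + p.2)
    · intro p hp
      simp only [coe_product, Set.mem_prod, mem_coe, mem_filter] at hp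
      rw [mem_coe, succ_nsmul']
      exact add_mem_add hp.1 hp.2.1
    · rintro ⟨g, v⟩ hp ⟨g', v'⟩ hp' h
      simp only [coe_product, Set.mem_prod, mem_coe, mem_filter] at hp hp' h
      have h2 : g.1 = g'.1 := by
        have := congrArg Prod.fst h
        simp only [Prod.fst_add] at this
        rw [hp.2.2, hp'.2.2] at this
        linarith
      have h3 : g = g' := hinj hp.1 hp'.1 h2
      subst h3
      have h4 : v = v' := add_left_cancel h
      rw [h4]
  rw [card_product] at h1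
  have h2 := h1.trans (hL (m + 1))
  rw [mul_comm (L ^ (m + 1))] at h2
  exact Nat.le_of_mul_le_mul_left h2 hG

/-- Pigeonhole. -/
lemma exists_fiber (G : Finset (ℤ × ℤ)) (A : Finset ℤ) (p : ℤ × ℤ → ℤ)
    (hA : ∀ g ∈ G, p g ∈ A) (hG : 0 < #G) : ∃ c : ℤ, #G ≤ #{g ∈ G | p g = c} * #A := by
  have hne : A.Nonempty := by
    obtain ⟨g, hg⟩ := card_pos.mp hG
    exact ⟨_, hA g hg⟩
  by_contra hcon
  push Not at hcon
  have h1 : #G = ∑ c ∈ A, #{g ∈ G | p g = c} := card_eq_sum_card_fiberwise hA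
  have h2 : ∑ c ∈ A, #{g ∈ G | p g = c} * #A < ∑ c ∈ A, #G :=
    sum_lt_sum_of_nonempty hne fun c _ => hcon c
  rw [← sum_mul, ← h1, sum_const, smul_eq_mul, mul_comm] at h2
  exact lt_irrefl _ h2

section tuples

variable (k : ℕ) (X : Finset (Fin k → ℤ × ℤ))

/-- The moments of the first coordinates. -/
def mom (i : ℕ) (f : Fin k → ℤ × ℤ) : ℤ := ∑ j : Fin k, ((j : ℕ) : ℤ) ^ i * (f j).1

/-- The set of tuples of the first `n` moments. -/
def cnt (n : ℕ) : ℕ := #(X.image fun f => fun i : Fin n => mom k i f)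

variable {k X}

lemma sum_fin_range {M : Type*} [AddCommMonoid M] (g : ℕ → M) (k : ℕ) :
    ∑ j : Fin k, g j = ∑ j ∈ range k, g j := (sum_range g).symm

/-- `V_i = ∑ j ^ i f_j` lies in `m_i G`, and its coordinates are `S_i` and `C_i - S_(i+1)`. -/
lemma moment_mem (G : Finset (ℤ × ℤ)) (c : ℕ → ℤ)
    (f : Fin k → ℤ × ℤ) (hf : ∀ j, f j ∈ G) (hc : ∀ j : Fin k, (f j).2 + ((j : ℕ) : ℤ) * (f j).1 = c j)
    (i : ℕ) : (mom k i f, (∑ j : Fin k, ((j : ℕ) : ℤ) ^ i * c j) - mom k (i + 1) f) ∈ (mm k i) • G := by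
  have h1 := smul_sum_mem G (univ : Finset (Fin k)) (fun j => (j : ℕ) ^ i) f fun j _ => hf j
  have h2 : ∑ j : Fin k, (j : ℕ) ^ i = mm k i := by
    rw [mm, ← sum_fin_range (fun j => j ^ i)]
  rw [h2] at h1
  have h3 : ∑ j : Fin k, ((j : ℕ) ^ i) • f j =
      (mom k i f, (∑ j : Fin k, ((j : ℕ) : ℤ) ^ i * c j) - mom k (i + 1) f) := by
    ext
    · simp only [Prod.fst_sum, Prod.smul_fst, mom]
      simp only [nsmul_eq_mul]
      push_cast
      rfl
    · simp only [Prod.snd_sum, Prod.smul_snd, mom]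
      simp only [nsmul_eq_mul]
      push_cast
      rw [← sum_sub_distrib]
      apply sum_congr rfl
      intro j _
      rw [← hc j]
      ring
  rw [h3] at h1
  exact h1

lemma cnt_two (G : Finset (ℤ × ℤ)) (L : ℕ) (hL : ∀ m : ℕ, #(m • G) ≤ L ^ m * #G) (c : ℕ → ℤ)
    (hX : ∀ f ∈ X, ∀ j, f j ∈ G)
    (hc : ∀ f ∈ X, ∀ j : Fin k, (f j).2 + ((j : ℕ) : ℤ) * (f j).1 = c j) :
    cnt k X 2 ≤ L ^ k * #G := by
  have hm : mm k 0 = k := by simp [mm]
  refine le_trans ?_ (hL k)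
  unfold cnt
  apply card_le_card_of_injOn
    (fun h => (h 0, (∑ j : Fin k, ((j : ℕ) : ℤ) ^ 0 * c j) - h 1))
  · intro h hh
    rw [mem_coe, mem_image] at hh
    obtain ⟨f, hf, rfl⟩ := hh
    have := moment_mem G c f (hX f hf) (hc f hf) 0
    rw [hm] at this
    exact this
  · intro h _ h' _ hhh
    simp only [Prod.mk.injEq] at hhh
    funext i
    fin_cases i
    · exact hhh.1
    · show h 1 = h' 1
      linarith [hhh.2]

lemma cnt_succ (G : Finset (ℤ × ℤ)) (hinj : Set.InjOn Prod.fst (G : Set (ℤ × ℤ))) (hG : 0 < #G)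
    (L : ℕ) (hL : ∀ m : ℕ, #(m • G) ≤ L ^ m * #G) (c : ℕ → ℤ)
    (hX : ∀ f ∈ X, ∀ j, f j ∈ G)
    (hc : ∀ f ∈ X, ∀ j : Fin k, (f j).2 + ((j : ℕ) : ℤ) * (f j).1 = c j) (n : ℕ) :
    cnt k X (n + 2) ≤ L ^ (mm k n + 1) * cnt k X (n + 1) := by
  classical
  unfold cnt
  set I2 := X.image fun f => fun i : Fin (n + 2) => mom k i f with hI2
  set I1 := X.image fun f => fun i : Fin (n + 1) => mom k i f with hI1
  have h1 : I2.image (fun h => fun i : Fin (n + 1) => h i.castSucc) = I1 := by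
    rw [hI2, hI1, image_image]
    rfl
  rw [← h1]
  apply card_le_mul_card_image
  intro b _
  refine le_trans ?_ (fiber_le G hinj hG L hL (mm k n) (b (Fin.last n)))
  apply card_le_card_of_injOn
    (fun h => (h (Fin.last n).castSucc,
      (∑ j : Fin k, ((j : ℕ) : ℤ) ^ n * c j) - h (Fin.last (n + 1))))
  · intro h hh
    rw [mem_coe, mem_filter] at hh
    obtain ⟨hh1, hh2⟩ := hh
    rw [hI2, mem_image] at hh1
    obtain ⟨f, hf, rfl⟩ := hh1
    rw [mem_coe, mem_filter]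
    refine ⟨?_, ?_⟩
    · exact moment_mem G c f (hX f hf) (hc f hf) n
    · rw [← hh2]
  · intro h hh h' hh' hhh
    rw [mem_coe, mem_filter] at hh hh'
    simp only [Prod.mk.injEq] at hhh
    funext i
    refine Fin.lastCases ?_ (fun i => ?_) i
    · linarith [hhh.2]
    · exact congrFun (hh.2.trans hh'.2.symm) i

/-- The first `k` moments determine the tuple. -/
lemma card_le_cnt (c : ℕ → ℤ)
    (hc : ∀ f ∈ X, ∀ j : Fin k, (f j).2 + ((j : ℕ) : ℤ) * (f j).1 = c j) :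
    #X ≤ cnt k X k := by
  unfold cnt
  rw [card_image_of_injOn]
  intro f hf f' hf' h
  have hf := mem_coe.mp hf
  have hf' := mem_coe.mp hf'
  have h0 : (fun j : Fin k => (f j).1 - (f' j).1) = 0 := by
    apply Matrix.eq_zero_of_forall_pow_sum_mul_pow_eq_zero
      (f := fun j : Fin k => ((j : ℕ) : ℤ))
    · intro i j hij
      have : (i : ℕ) = (j : ℕ) := by simpa using hij
      exact Fin.ext this
    · intro i
      have h1 := congrFun h i
      simp only [mom] at h1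
      have h2 : ∑ j : Fin k, ((f j).1 - (f' j).1) * ((j : ℕ) : ℤ) ^ (i : ℕ) =
          (∑ j : Fin k, ((j : ℕ) : ℤ) ^ (i : ℕ) * (f j).1) -
          ∑ j : Fin k, ((j : ℕ) : ℤ) ^ (i : ℕ) * (f' j).1 := by
        rw [← sum_sub_distrib]
        apply sum_congr rfl
        intro j _
        ring
      rw [h2, h1, sub_self]
  funext j
  have h1 : (f j).1 = (f' j).1 := by
    have := congrFun h0 j
    simpa [sub_eq_zero] using this
  have h2 := hc f hf j
  have h3 := hc f' hf' j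
  rw [h1] at h2
  ext
  · exact h1
  · linarith

end tuples

/-- **Projections of structured graphs.** -/
theorem core (k : ℕ) (hk : 0 < k) (G : Finset (ℤ × ℤ))
    (hinj : Set.InjOn Prod.fst (G : Set (ℤ × ℤ))) (hG : 0 < #G)
    (L : ℕ) (hL : ∀ m : ℕ, #(m • G) ≤ L ^ m * #G) (A : Finset ℤ)
    (hA : ∀ g ∈ G, ∀ j < k, g.2 + (j : ℤ) * g.1 ∈ A) :
    #G ^ (k - 1) ≤ L ^ ee k * #A ^ k := by
  classical
  have hL1 : 1 ≤ L := by
    have := hL 1
    rw [one_nsmul, pow_one] at this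
    by_contra h
    have h0 : L = 0 := by omega
    rw [h0] at this
    omega
  have hAne : 1 ≤ #A := by
    obtain ⟨g, hg⟩ := card_pos.mp hG
    exact card_pos.mpr ⟨_, hA g hg 0 hk⟩
  rcases Nat.lt_or_ge k 2 with hk2 | hk2
  · have : k = 1 := by omega
    subst this
    simp only [Nat.sub_self, pow_zero]
    exact Nat.mul_pos (Nat.pow_pos hL1) (Nat.pow_pos hAne)
  have hfib : ∀ j : ℕ, ∃ c : ℤ, j < k → #G ≤ #{g ∈ G | g.2 + (j : ℤ) * g.1 = c} * #A := by
    intro j
    by_cases hj : j < k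
    · obtain ⟨c, hc⟩ := exists_fiber G A (fun g => g.2 + (j : ℤ) * g.1)
        (fun g hg => hA g hg j hj) hG
      exact ⟨c, fun _ => hc⟩
    · exact ⟨0, fun h => absurd h hj⟩
  choose c hc using hfib
  set F : Fin k → Finset (ℤ × ℤ) := fun j => {g ∈ G | g.2 + ((j : ℕ) : ℤ) * g.1 = c j} with hF
  set X : Finset (Fin k → ℤ × ℤ) := Fintype.piFinset F with hX
  have hX1 : ∀ f ∈ X, ∀ j, f j ∈ G := by
    intro f hf j
    have := Fintype.mem_piFinset.mp hf j
    simp only [hF, mem_filter] at this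
    exact this.1
  have hX2 : ∀ f ∈ X, ∀ j : Fin k, (f j).2 + ((j : ℕ) : ℤ) * (f j).1 = c j := by
    intro f hf j
    have := Fintype.mem_piFinset.mp hf j
    simp only [hF, mem_filter] at this
    exact this.2
  have hcard : #X = ∏ j : Fin k, #(F j) := Fintype.card_piFinset F
  -- count
  have hcnt : ∀ n : ℕ, cnt k X (n + 2) ≤ L ^ (k + ∑ i ∈ Ico 1 (n + 1), (mm k i + 1)) * #G := by
    intro n
    induction n with
    | zero =>
      simpa using cnt_two G L hL c hX1 hX2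
    | succ n ih =>
      calc cnt k X (n + 1 + 2) ≤ L ^ (mm k (n + 1) + 1) * cnt k X (n + 1 + 1) :=
            cnt_succ G hinj hG L hL c hX1 hX2 (n + 1)
        _ ≤ L ^ (mm k (n + 1) + 1) * (L ^ (k + ∑ i ∈ Ico 1 (n + 1), (mm k i + 1)) * #G) :=
            Nat.mul_le_mul_left _ ih
        _ = L ^ (k + ∑ i ∈ Ico 1 (n + 1 + 1), (mm k i + 1)) * #G := by
            have h5 : ∑ i ∈ Ico 1 (n + 1 + 1), (mm k i + 1) =
                ∑ i ∈ Ico 1 (n + 1), (mm k i + 1) + (mm k (n + 1) + 1) :=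
              sum_Ico_succ_top (by omega) _
            rw [h5, ← mul_assoc, ← pow_add]
            congr 2
            ring
  have h1 : #X ≤ L ^ ee k * #G := by
    have h2 := hcnt (k - 2)
    have h3 : k - 2 + 2 = k := by omega
    have h4 : k - 2 + 1 = k - 1 := by omega
    rw [h3, h4] at h2
    exact (card_le_cnt c hX2).trans h2
  have h2 : #G ^ k ≤ (∏ j : Fin k, #(F j)) * #A ^ k := by
    calc #G ^ k = ∏ _j : Fin k, #G := by simp
      _ ≤ ∏ j : Fin k, (#(F j) * #A) := prod_le_prod' fun j _ => hc j j.2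
      _ = _ := by rw [prod_mul_distrib]; simp
  have h3 : #G ^ (k - 1) * #G ≤ (L ^ ee k * #A ^ k) * #G := by
    calc #G ^ (k - 1) * #G = #G ^ k := by rw [← pow_succ]; congr 1; omega
      _ ≤ (∏ j : Fin k, #(F j)) * #A ^ k := h2
      _ ≤ (L ^ ee k * #G) * #A ^ k := Nat.mul_le_mul_right _ (by rw [← hcard]; exact h1)
      _ = _ := by ring
  exact Nat.le_of_mul_le_mul_right h3 hG

end Pool.Agent.H43.AK
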