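import Mathlib

/-!
# Additive quadruples of a graph
-/

namespace Pool.Agent.H43.AK

open Finset

/-- The number of quadruples `(p, q, r, s)` of elements of `D` with `p + q = r + s` and
`a p + a q = a r + a s`. -/
def quadruples (D : Finset ℕ) (a : ℕ → ℕ) : ℕ :=
  #{t ∈ D ×ˢ D ×ˢ D ×ˢ D | t.1 + t.2.1 = t.2.2.1 + t.2.2.2 ∧
    a t.1 + a t.2.1 = a t.2.2.1 + a t.2.2.2}

/-- `A` contains the progressions `a d, a d + d, ..., a d + (k-1) d` for all `d` in `D`. -/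
def Contains (k : ℕ) (D : Finset ℕ) (a : ℕ → ℕ) (A : Finset ℕ) : Prop :=
  ∀ d ∈ D, ∀ j < k, a d + j * d ∈ A

/-- The sumset of the graph of `a` over `D` with itself. -/
def sumset (D : Finset ℕ) (a : ℕ → ℕ) : Finset (ℕ × ℕ) :=
  (D ×ˢ D).image fun p => (p.1 + p.2, a p.1 + a p.2)

end Pool.Agent.H43.AK
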