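import Pool.Agent.H43.AK.Core
import Pool.Agent.H43.AK.BSG

/-!
# Sets containing progressions with additively structured starts
-/

namespace Pool.Agent.H43.AK

open Finset
open scoped Pointwise

/-- The graph of `a` over `D`. -/
def graph (D : Finset ℕ) (a : ℕ → ℕ) : Finset (ℤ × ℤ) :=
  D.image fun d : ℕ => ((d : ℤ), (a d : ℤ))

lemma card_graph (D : Finset ℕ) (a : ℕ → ℕ) : #(graph D a) = #D := by
  apply card_image_of_injective
  intro x y h
  simp only [Prod.mk.injEq] at h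
  exact_mod_cast h.1

lemma graph_inj (D : Finset ℕ) (a : ℕ → ℕ) :
    Set.InjOn Prod.fst (graph D a : Set (ℤ × ℤ)) := by
  intro x hx y hy h
  rw [mem_coe, graph, mem_image] at hx hy
  obtain ⟨d, -, rfl⟩ := hx
  obtain ⟨e, -, rfl⟩ := hy
  have h' : (d : ℤ) = (e : ℤ) := h
  have : d = e := by exact_mod_cast h'
  rw [this]

lemma card_image_cast (A : Finset ℕ) : #(A.image fun n : ℕ => (n : ℤ)) = #A :=
  card_image_of_injective _ Nat.cast_injective

lemma graph_proj (k : ℕ) (D : Finset ℕ) (a : ℕ → ℕ) (A : Finset ℕ) (hA : Contains k D a A) :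
    ∀ g ∈ graph D a, ∀ j < k, g.2 + (j : ℤ) * g.1 ∈ A.image fun n : ℕ => (n : ℤ) := by
  intro g hg j hj
  rw [graph, mem_image] at hg
  obtain ⟨d, hd, rfl⟩ := hg
  rw [mem_image]
  exact ⟨a d + j * d, hA d hd j hj, by push_cast; rfl⟩

lemma pow_of_add (G : Finset (ℤ × ℤ)) (hG : G.Nonempty) (L : ℕ) (h : #(G + G) ≤ L * #G)
    (m : ℕ) : #(m • G) ≤ L ^ m * #G := by
  have h1 := pluennecke_ruzsa_inequality_nsmul_add hG G m
  have h2 : (#(G + G) / #G : ℚ≥0) ≤ L := by
    have : (0 : ℚ≥0) < #G := by exact_mod_cast card_pos.mpr hG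
    rw [div_le_iff₀ this]
    exact_mod_cast h
  have h3 : (#(m • G) : ℚ≥0) ≤ (L : ℚ≥0) ^ m * #G :=
    h1.trans (mul_le_mul_of_nonneg_right (pow_le_pow_left₀ zero_le h2 m) zero_le)
  exact_mod_cast h3

lemma pow_of_sub (G : Finset (ℤ × ℤ)) (hG : G.Nonempty) (L : ℕ) (h : #(G - G) ≤ L * #G)
    (m : ℕ) : #(m • G) ≤ L ^ m * #G := by
  have h1 := pluennecke_ruzsa_inequality_nsmul_sub hG G m
  have h2 : (#(G - G) / #G : ℚ≥0) ≤ L := by
    have : (0 : ℚ≥0) < #G := by exact_mod_cast card_pos.mpr hG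
    rw [div_le_iff₀ this]
    exact_mod_cast h
  have h3 : (#(m • G) : ℚ≥0) ≤ (L : ℚ≥0) ^ m * #G :=
    h1.trans (mul_le_mul_of_nonneg_right (pow_le_pow_left₀ zero_le h2 m) zero_le)
  exact_mod_cast h3

/-- **Small doubling.** -/
theorem doubling (k : ℕ) (hk : 0 < k) (D : Finset ℕ) (hD : D.Nonempty) (a : ℕ → ℕ)
    (A : Finset ℕ) (hA : Contains k D a A) (L : ℕ)
    (hL : #(sumset D a) ≤ L * #D) :
    #D ^ (k - 1) ≤ L ^ ee k * #A ^ k := by
  have hG : 0 < #(graph D a) := by rw [card_graph]; exact card_pos.mpr hD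
  have h1 : graph D a + graph D a = (sumset D a).image
      fun q : ℕ × ℕ => ((q.1 : ℤ), (q.2 : ℤ)) := by
    ext v
    constructor
    · intro hv
      obtain ⟨x, hx, y, hy, rfl⟩ := mem_add.mp hv
      rw [graph, mem_image] at hx hy
      obtain ⟨d, hd, rfl⟩ := hx
      obtain ⟨e, he, rfl⟩ := hy
      rw [mem_image]
      exact ⟨(d + e, a d + a e), mem_image.mpr ⟨(d, e), mem_product.mpr ⟨hd, he⟩, rfl⟩, by simp⟩
    · intro hv
      obtain ⟨q, hq, rfl⟩ := mem_image.mp hv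
      obtain ⟨p, hp, rfl⟩ := mem_image.mp hq
      rw [mem_product] at hp
      exact mem_add.mpr ⟨_, mem_image_of_mem _ hp.1, _, mem_image_of_mem _ hp.2, by simp⟩
  have h2 : #(graph D a + graph D a) ≤ L * #(graph D a) := by
    rw [h1, card_graph]
    exact card_image_le.trans hL
  have h3 := core k hk (graph D a) (graph_inj D a) hG L
    (pow_of_add _ (card_pos.mp hG) L h2) _ (graph_proj k D a A hA)
  rwa [card_graph, card_image_cast] at h3

lemma quads_graph (D : Finset ℕ) (a : ℕ → ℕ) : quadruples D a ≤ quads (graph D a) := by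
  classical
  have h1 : quads (graph D a) =
      #{w ∈ (graph D a ×ˢ graph D a) ×ˢ (graph D a ×ˢ graph D a) |
        w.2.1 - w.2.2 = w.1.1 - w.1.2} := by
    rw [card_filter, sum_product, quads]
    apply sum_congr rfl
    intro p _
    rw [dif, rep, card_filter]
  rw [h1, quadruples]
  set φ : ℕ → ℤ × ℤ := fun d => ((d : ℤ), (a d : ℤ)) with hφ
  have hφi : Function.Injective φ := by
    intro x y h
    simp only [hφ, Prod.mk.injEq] at h
    exact_mod_cast h.1
  have hφm : ∀ d ∈ D, φ d ∈ graph D a := fun d hd => mem_image_of_mem _ hd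
  apply card_le_card_of_injOn
    (fun t => ((φ t.1, φ t.2.2.1), (φ t.2.2.2, φ t.2.1)))
  · rintro ⟨p, q, r, s⟩ ht
    simp only [coe_filter, mem_product, Set.mem_ofPred_eq] at ht
    obtain ⟨⟨hp, hq, hr, hs⟩, h2, h3⟩ := ht
    simp only [coe_filter, mem_product, Set.mem_ofPred_eq]
    refine ⟨⟨⟨hφm p hp, hφm r hr⟩, hφm s hs, hφm q hq⟩, ?_⟩
    have h2' : (p : ℤ) + q = r + s := by exact_mod_cast h2
    have h3' : (a p : ℤ) + a q = a r + a s := by exact_mod_cast h3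
    ext
    · simp only [hφ, Prod.fst_sub]; linarith
    · simp only [hφ, Prod.snd_sub]; linarith
  · rintro ⟨p, q, r, s⟩ _ ⟨p', q', r', s'⟩ _ h
    simp only [Prod.mk.injEq] at h
    obtain ⟨⟨h1, h2⟩, h3, h4⟩ := h
    rw [hφi h1, hφi h2, hφi h3, hφi h4]

/-- **Many additive quadruples.** -/
theorem energy (k : ℕ) (hk : 0 < k) : ∃ C : ℕ, ∀ (D : Finset ℕ) (a : ℕ → ℕ) (A : Finset ℕ)
    (K : ℕ), D.Nonempty → 0 < K → Contains k D a A → #D ^ 3 ≤ K * quadruples D a →
    #D ^ (k - 1) ≤ C * K ^ C * #A ^ k := by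
  refine ⟨max (6 ^ (k - 1) * (2 ^ 21) ^ ee k) (k - 1 + 10 * ee k), ?_⟩
  intro D a A K hD hK hA hE
  have hG : 0 < #(graph D a) := by rw [card_graph]; exact card_pos.mpr hD
  have hE' : #(graph D a) ^ 3 ≤ K * quads (graph D a) := by
    rw [card_graph]
    exact hE.trans (Nat.mul_le_mul_left _ (quads_graph D a))
  obtain ⟨G', hsub, hpos, hcard, hdif⟩ := bsg (graph D a) K hK hG hE'
  rw [card_graph] at hcard
  have h1 := core k hk G' ((graph_inj D a).mono (by exact_mod_cast hsub)) hpos (2 ^ 21 * K ^ 10)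
    (pow_of_sub _ (card_pos.mp hpos) _ hdif) (A.image fun n : ℕ => (n : ℤ))
    (fun g hg => graph_proj k D a A hA g (hsub hg))
  rw [card_image_cast] at h1
  calc #D ^ (k - 1) ≤ (6 * K * #G') ^ (k - 1) := Nat.pow_le_pow_left hcard _
    _ = 6 ^ (k - 1) * K ^ (k - 1) * #G' ^ (k - 1) := by rw [mul_pow, mul_pow]
    _ ≤ 6 ^ (k - 1) * K ^ (k - 1) * ((2 ^ 21 * K ^ 10) ^ ee k * #A ^ k) :=
        Nat.mul_le_mul_left _ h1
    _ = (6 ^ (k - 1) * (2 ^ 21) ^ ee k) * K ^ (k - 1 + 10 * ee k) * #A ^ k := by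
        rw [mul_pow, ← pow_mul K 10, pow_add]; ring
    _ ≤ _ := by
        apply Nat.mul_le_mul_right
        apply Nat.mul_le_mul (le_max_left _ _)
        exact Nat.pow_le_pow_right hK (le_max_right _ _)

end Pool.Agent.H43.AK
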