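import Pool.Agent.H43.AK.Defs
import Pool.Agent.H77.AK.OSC

/-!
# The exponent `1 - 1/k` is best possible for structured starts

`a d = k N - b (d - 1)` with `b e = ∑ Q ^ i ⌊e / Q ^ i⌋` over `1 ≤ i < k` (the digit example of
`Pool.Agent.H77.AK.OSC`). As `⌊(e + e') / Q ^ i⌋ - ⌊e / Q ^ i⌋ - ⌊e' / Q ^ i⌋` is `0` or `1`, the
sums `(d + d', a d + a d')` have at most `(2 N + 1) 2 ^ (k - 1)` values, and Cauchy-Schwarz gives
the quadruples.
-/

namespace Pool.Agent.H43.AK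

open Finset

/-- Cauchy-Schwarz: the fourth power of the size is at most the number of sums times the number
of quadruples. -/
private lemma pow_four_le (D : Finset ℕ) (a : ℕ → ℕ) :
    #D ^ 4 ≤ #((D ×ˢ D).image (fun x => (x.1 + x.2, a x.1 + a x.2))) * quadruples D a := by
  classical
  set f : ℕ × ℕ → ℕ × ℕ := fun x => (x.1 + x.2, a x.1 + a x.2) with hf
  have h1 : quadruples D a = #{z ∈ (D ×ˢ D) ×ˢ (D ×ˢ D) | f z.2 = f z.1} := by
    unfold quadruples
    apply card_bij (fun t _ => ((t.1, t.2.1), t.2.2))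
    · intro t ht
      simp only [mem_filter, mem_product, hf, Prod.mk.injEq] at ht ⊢
      exact ⟨⟨⟨ht.1.1, ht.1.2.1⟩, ht.1.2.2⟩, ht.2.1.symm, ht.2.2.symm⟩
    · rintro ⟨p, q, r, s⟩ _ ⟨p', q', r', s'⟩ _ h
      simp only [Prod.mk.injEq] at h ⊢
      exact ⟨h.1.1, h.1.2, h.2⟩
    · rintro ⟨⟨p, q⟩, r, s⟩ hz
      simp only [mem_filter, mem_product, hf, Prod.mk.injEq] at hz
      refine ⟨(p, q, r, s), ?_, rfl⟩
      simp only [mem_filter, mem_product]
      exact ⟨⟨hz.1.1.1, hz.1.1.2, hz.1.2⟩, hz.2.1.symm, hz.2.2.symm⟩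
  have h2 : quadruples D a = ∑ t ∈ (D ×ˢ D).image f, #{y ∈ D ×ˢ D | f y = t} ^ 2 := by
    rw [h1, card_filter, sum_product]
    have h3 : ∀ x ∈ D ×ˢ D, (∑ y ∈ D ×ˢ D, if f (x, y).2 = f (x, y).1 then 1 else 0)
        = (fun t => #{y ∈ D ×ˢ D | f y = t}) (f x) := by
      intro x _
      exact (card_filter _ _).symm
    rw [sum_congr rfl h3, sum_comp (fun t => #{y ∈ D ×ˢ D | f y = t}) f]
    apply sum_congr rfl
    intro t _
    rw [smul_eq_mul, sq]
  have h4 : #D ^ 2 = ∑ t ∈ (D ×ˢ D).image f, #{y ∈ D ×ˢ D | f y = t} := by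
    rw [← card_eq_sum_card_image, card_product, sq]
  have h5 := sq_sum_le_card_mul_sum_sq (s := (D ×ˢ D).image f)
    (f := fun t => #{y ∈ D ×ˢ D | f y = t})
  rw [← h4, ← h2] at h5
  calc #D ^ 4 = (#D ^ 2) ^ 2 := by ring
    _ ≤ _ := h5

open Pool.Agent.H77.AK in
/-- the number of sums -/
private lemma card_sums (k Q N : ℕ) :
    #((Icc 1 N ×ˢ Icc 1 N).image (fun x : ℕ × ℕ =>
      (x.1 + x.2, (k * N - bmap k Q (x.1 - 1)) + (k * N - bmap k Q (x.2 - 1)))))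
      ≤ (2 * N + 1) * 2 ^ (k - 1) := by
  classical
  have hsub : (Icc 1 N ×ˢ Icc 1 N).image (fun x : ℕ × ℕ =>
      (x.1 + x.2, (k * N - bmap k Q (x.1 - 1)) + (k * N - bmap k Q (x.2 - 1))))
      ⊆ (range (2 * N + 1) ×ˢ (Ico 1 k).powerset).image (fun y : ℕ × Finset ℕ =>
        (y.1, 2 * (k * N) - (bmap k Q (y.1 - 2) - ∑ i ∈ y.2, Q ^ i))) := by
    intro z hz
    obtain ⟨⟨d, d'⟩, hd, rfl⟩ := mem_image.1 hz
    simp only [mem_product, mem_Icc] at hd
    obtain ⟨⟨h1, h2⟩, h3, h4⟩ := hd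
    refine mem_image.2 ⟨(d + d', {i ∈ Ico 1 k | Q ^ i ≤ (d - 1) % Q ^ i + (d' - 1) % Q ^ i}),
      ?_, ?_⟩
    · simp only [mem_product, mem_range, mem_powerset]
      exact ⟨by omega, filter_subset _ _⟩
    · simp only [Prod.mk.injEq, true_and]
      have h5 : bmap k Q (d + d' - 2) = bmap k Q (d - 1) + bmap k Q (d' - 1)
          + ∑ i ∈ Ico 1 k with Q ^ i ≤ (d - 1) % Q ^ i + (d' - 1) % Q ^ i, Q ^ i := by
        unfold bmap
        rw [sum_filter, ← sum_add_distrib, ← sum_add_distrib]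
        apply sum_congr rfl
        intro i hi
        have e1 : d + d' - 2 = (d - 1) + (d' - 1) := by omega
        rcases Nat.eq_zero_or_pos (Q ^ i) with h0 | h0
        · rw [h0]
          simp
        · rw [e1, Nat.add_div h0]
          split_ifs
          · ring
          · ring
      have h6 : bmap k Q (d - 1) ≤ k * N :=
        (bmap_le k Q _).trans (Nat.mul_le_mul_left _ (by omega))
      have h7 : bmap k Q (d' - 1) ≤ k * N :=
        (bmap_le k Q _).trans (Nat.mul_le_mul_left _ (by omega))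
      omega
  refine (card_le_card hsub).trans (card_image_le.trans ?_)
  rw [card_product, card_range, card_powerset, Nat.card_Ico]

open Pool.Agent.H77.AK in
/-- Digits: `d = ∑ d_i Q^i` (`i < k`), `a d = T - ∑ i d_i Q^i`; `a d + j d` misses the digit `j`. The graph is a
Freiman copy of a subset of the box, `|G + G| ≤ (2Q)^k`, and Cauchy-Schwarz gives the quadruples. -/
theorem sharp (k : ℕ) (hk : 0 < k) : ∃ C : ℕ, ∀ N : ℕ, 0 < N →
    ∃ (a : ℕ → ℕ) (A : Finset ℕ), Contains k (Icc 1 N) a A ∧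
      #(sumset (Icc 1 N) a) ≤ C * N ∧ N ^ 3 ≤ C * quadruples (Icc 1 N) a ∧
      #A ^ k ≤ C * N ^ (k - 1) := by
  refine ⟨3 * 2 ^ (k - 1) + k ^ k * (2 ^ k) ^ (k - 1), ?_⟩
  intro N hN
  have hex : ∃ Q : ℕ, N ≤ Q ^ k := ⟨N, Nat.le_self_pow hk.ne' N⟩
  classical
  set Q := Nat.find hex with hQdef
  have hNQ : N ≤ Q ^ k := Nat.find_spec hex
  have hQ1 : 1 ≤ Q := by
    by_contra h
    have h0 : Q = 0 := by omega
    rw [h0, Nat.zero_pow hk] at hNQ
    omega
  have hQN : Q ^ k ≤ 2 ^ k * N := by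
    rcases Nat.lt_or_ge 1 Q with h | h
    · have h1 : ¬ N ≤ (Q - 1) ^ k := Nat.find_min hex (by omega)
      push Not at h1
      have h2 : Q ^ k ≤ (2 * (Q - 1)) ^ k := Nat.pow_le_pow_left (by omega) k
      rw [Nat.mul_pow] at h2
      exact h2.trans (Nat.mul_le_mul_left _ h1.le)
    · have h1 : Q = 1 := by omega
      rw [h1, Nat.one_pow]
      exact Nat.mul_pos (Nat.pow_pos (by norm_num)) hN
  refine ⟨fun d => k * N - bmap k Q (d - 1), exSet k Q (k * N), ?_, ?_, ?_, ?_⟩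
  · intro d hd j hj
    exact exSet_mem k Q N hQ1 hNQ d hd j (mem_range.2 hj)
  · calc #(sumset (Icc 1 N) fun d => k * N - bmap k Q (d - 1)) ≤ (2 * N + 1) * 2 ^ (k - 1) :=
          card_sums k Q N
      _ ≤ (3 * N) * 2 ^ (k - 1) := Nat.mul_le_mul_right _ (by omega)
      _ = 3 * 2 ^ (k - 1) * N := by ring
      _ ≤ _ := Nat.mul_le_mul_right _ (Nat.le_add_right _ _)
  · have h1 := pow_four_le (Icc 1 N) (fun d => k * N - bmap k Q (d - 1))
    have h2 := card_sums k Q N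
    rw [Nat.card_Icc, Nat.add_sub_cancel] at h1
    set E := quadruples (Icc 1 N) (fun d => k * N - bmap k Q (d - 1)) with hE
    have h3 : N ^ 4 ≤ (2 * N + 1) * 2 ^ (k - 1) * E := h1.trans (Nat.mul_le_mul_right _ h2)
    have h4 : (2 * N + 1) * 2 ^ (k - 1) * E ≤ N * (3 * 2 ^ (k - 1) * E) := by
      have h5 : 2 * N + 1 ≤ 3 * N := by omega
      calc (2 * N + 1) * 2 ^ (k - 1) * E ≤ 3 * N * 2 ^ (k - 1) * E :=
            Nat.mul_le_mul_right _ (Nat.mul_le_mul_right _ h5)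
        _ = N * (3 * 2 ^ (k - 1) * E) := by ring
    have h6 : N * N ^ 3 ≤ N * (3 * 2 ^ (k - 1) * E) := by
      calc N * N ^ 3 = N ^ 4 := by ring
        _ ≤ _ := h3.trans h4
    have h7 := Nat.le_of_mul_le_mul_left h6 hN
    refine h7.trans (Nat.mul_le_mul_right _ (Nat.le_add_right _ _))
  · have h1 := exSet_card k Q (k * N)
    calc #(exSet k Q (k * N)) ^ k ≤ (k * Q ^ (k - 1)) ^ k := Nat.pow_le_pow_left h1 k
      _ = k ^ k * (Q ^ k) ^ (k - 1) := by
          rw [Nat.mul_pow, ← Nat.pow_mul, ← Nat.pow_mul, Nat.mul_comm (k - 1) k]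
      _ ≤ k ^ k * (2 ^ k * N) ^ (k - 1) :=
          Nat.mul_le_mul_left _ (Nat.pow_le_pow_left hQN _)
      _ = k ^ k * (2 ^ k) ^ (k - 1) * N ^ (k - 1) := by rw [Nat.mul_pow, Nat.mul_assoc]
      _ ≤ _ := Nat.mul_le_mul_right _ (Nat.le_add_left _ _)

end Pool.Agent.H43.AK
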